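import Pool.Agent.Helper9.UP.StS

/-!
# Project UP, module FL: the fundamental lemma with uniform level
-/

set_option autoImplicit false

noncomputable section

namespace Pool.Agent.Helper76.UP

open Finset Polynomial Pool.Agent.Helper9.UP
open Pool.Agent.Helper18.TR (Qi)

theorem sum_lin (n : ℕ) : ∀ a b L : ℝ, 0 ≤ a → 0 ≤ b → 0 ≤ L →
    ∑ i ∈ range n, (a + b * i) * (L / 2 ^ i) ≤ (2 * a + 2 * b) * L := by
  induction n with
  | zero =>
    intro a b L ha hb hL
    rw [Finset.sum_range_zero]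
    positivity
  | succ n ih =>
    intro a b L ha hb hL
    rw [Finset.sum_range_succ']
    have h := ih (a + b) b (L / 2) (by positivity) hb (by positivity)
    have h2 : ∑ k ∈ range n, (a + b * ((k + 1 : ℕ) : ℝ)) * (L / 2 ^ (k + 1)) =
        ∑ k ∈ range n, (a + b + b * (k : ℝ)) * (L / 2 / 2 ^ k) := by
      refine Finset.sum_congr rfl (fun k _ => ?_)
      rw [pow_succ, div_div, mul_comm (2 : ℝ) (2 ^ k)]
      push_cast
      ring
    rw [h2]
    simp only [Nat.cast_zero, mul_zero, add_zero, pow_zero, div_one]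
    nlinarith

theorem sum_cut (n : ℕ) : ∀ B L : ℝ, 0 ≤ B → 0 ≤ L →
    ∑ i ∈ range n, (if B ≤ L / 2 ^ i then 0 else L / 2 ^ i) ≤ 2 * min L B := by
  induction n with
  | zero =>
    intro B L hB hL
    rw [Finset.sum_range_zero]
    have : 0 ≤ min L B := le_min hL hB
    linarith
  | succ n ih =>
    intro B L hB hL
    rw [Finset.sum_range_succ']
    have h := ih B (L / 2) hB (by positivity)
    have h2 : ∑ k ∈ range n, (if B ≤ L / 2 ^ (k + 1) then 0 else L / 2 ^ (k + 1)) =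
        ∑ k ∈ range n, (if B ≤ L / 2 / 2 ^ k then 0 else L / 2 / 2 ^ k) := by
      refine Finset.sum_congr rfl (fun k _ => ?_)
      rw [pow_succ, div_div, mul_comm (2 : ℝ) (2 ^ k)]
    rw [h2]
    simp only [pow_zero, div_one]
    have h3 : min (L / 2) B ≤ L / 2 := min_le_left _ _
    have h4 : min (L / 2) B ≤ B := min_le_right _ _
    split_ifs with hc
    · rw [min_eq_right hc]
      linarith
    · rw [min_eq_left (not_le.1 hc).le]
      linarith

theorem mem_of_filter {α : Type} {s : Finset α} {p : α → Prop} (inst : DecidablePred p) {x : α}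
    (h : x ∈ @Finset.filter α p inst s) : x ∈ s := (Finset.mem_filter.1 h).1

theorem hFL (hB : StBO) (hM : StMN) (hL : StLV) (hR : StRS) (hRO : StRO) : StFL := by
  classical
  intro ε hε hε1
  obtain ⟨C, Λ₀, hC, hΛ₀, H⟩ := hR
  obtain ⟨s, hs⟩ : ∃ s : ℕ, Real.exp (-(s : ℝ)) ≤ ε := by
    refine ⟨⌈Real.log (1 / ε)⌉₊, ?_⟩
    have h1 : Real.log (1 / ε) ≤ (⌈Real.log (1 / ε)⌉₊ : ℝ) := Nat.le_ceil _
    rw [one_div, Real.log_inv] at h1
    calc Real.exp (-(⌈Real.log (1 / ε)⌉₊ : ℝ)) ≤ Real.exp (Real.log ε) := by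
          rw [one_div, Real.log_inv]
          exact Real.exp_le_exp.2 (by linarith)
      _ = ε := Real.exp_log hε
  refine ⟨726 + 4 * s + 124 * C ^ 2, Λ₀, ?_, ?_⟩
  · have : (0 : ℝ) ≤ s := Nat.cast_nonneg s
    nlinarith [sq_nonneg C]
  intro Λ hΛ f hf w hw hwl
  have hΛ1 : 1 ≤ Λ := hΛ₀.trans hΛ
  have hw1 : 1 ≤ w := by omega
  have hLw : 0 ≤ Real.log w := Real.log_natCast_nonneg w
  obtain ⟨R, hR1, hR2⟩ : ∃ R : ℕ, 30 * C * Λ ≤ R ∧ (R : ℝ) ≤ 31 * C * Λ := by
    refine ⟨⌈30 * C * Λ⌉₊, Nat.le_ceil _, ?_⟩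
    have h1 := Nat.ceil_lt_add_one (by positivity : 0 ≤ 30 * C * Λ)
    nlinarith
  obtain ⟨β, hβ⟩ : ∃ β : ℕ → ℕ, β = fun i => 2 * (180 + s + i +
      (if C * Λ ^ 3 ≤ Real.log w / 2 ^ i then 0 else R)) := ⟨_, rfl⟩
  have hev : ∀ i, Even (β i) := by
    intro i
    rw [hβ]
    exact even_two_mul _
  have hQ : ∀ p ∈ Qf f w, p.Prime ∧ p ≤ w ∧ 2 * f.natDegree < p := by
    intro p hp
    unfold Qf at hp
    rw [Finset.mem_filter, Finset.mem_Ioc] at hp
    exact ⟨hp.2, hp.1.2, hp.1.1⟩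
  have hg : ∀ p ∈ Qf f w, 0 ≤ gf f p ∧ gf f p ≤ 1 / 2 := by
    intro p hp
    obtain ⟨h1, h2, h3⟩ := hQ p hp
    unfold gf
    rw [if_neg (by omega)]
    have h4 := hRO Λ f hf p h1
    have h5 : (rho f p : ℝ) ≤ f.natDegree := by exact_mod_cast h4
    have h6 : (2 : ℝ) * f.natDegree < p := by exact_mod_cast h3
    have h7 : (0 : ℝ) < p := by exact_mod_cast h1.pos
    refine ⟨by positivity, ?_⟩
    rw [div_le_iff₀ h7]
    linarith
  have hrange : ∀ i ∈ range (w + 1), 60 * ∑ p ∈ Qi w (Qf f w) i, gf f p ≤ (β i : ℝ) := by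
    intro i _
    obtain ⟨h1, h2⟩ := H Λ hΛ f hf w i hw hwl
    rw [hβ]
    by_cases hc : C * Λ ^ 3 ≤ Real.log w / 2 ^ i
    · have h3 := h2 hc
      simp only [if_pos hc]
      push_cast
      have : (0 : ℝ) ≤ s := Nat.cast_nonneg s
      have : (0 : ℝ) ≤ i := Nat.cast_nonneg i
      linarith
    · simp only [if_neg hc]
      push_cast
      have : (0 : ℝ) ≤ s := Nat.cast_nonneg s
      have : (0 : ℝ) ≤ i := Nat.cast_nonneg i
      linarith
  have hη : ∑ i ∈ range (w + 1), Real.exp (-(3 * (β i : ℝ)) - 3) ≤ ε / 2 := by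
    have h1 : ∀ i ∈ range (w + 1), Real.exp (-(3 * (β i : ℝ)) - 3) ≤
        (Real.exp (-(s : ℝ)) / 4 + 0 * (i : ℝ)) * (1 / 2 ^ i) := by
      intro i _
      have h2 : 2 * (180 + (s : ℝ) + i) ≤ (β i : ℝ) := by
        rw [hβ]
        push_cast
        have : (0 : ℝ) ≤ (((if C * Λ ^ 3 ≤ Real.log w / 2 ^ i then 0 else R : ℕ)) : ℝ) :=
          Nat.cast_nonneg _
        push_cast at this
        linarith
      have h3 : -(3 * (β i : ℝ)) - 3 ≤ -(s : ℝ) + (-2 + -(i : ℝ)) := by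
        have : (0 : ℝ) ≤ s := Nat.cast_nonneg s
        have : (0 : ℝ) ≤ i := Nat.cast_nonneg i
        linarith
      have h4 : Real.exp (-2) ≤ 1 / 4 := by
        rw [Real.exp_neg, ← one_div]
        refine one_div_le_one_div_of_le (by norm_num) ?_
        have h5 := Real.add_one_le_exp (1 : ℝ)
        have h6 : Real.exp 2 = Real.exp 1 * Real.exp 1 := by
          rw [← Real.exp_add]
          norm_num
        rw [h6]
        nlinarith
      have h5 : Real.exp (-(i : ℝ)) ≤ 1 / 2 ^ i := by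
        rw [Real.exp_neg, ← one_div]
        refine one_div_le_one_div_of_le (by positivity) ?_
        have h6 : Real.exp (i : ℝ) = Real.exp 1 ^ i := by
          rw [← Real.exp_nat_mul, mul_one]
        rw [h6]
        refine pow_le_pow_left₀ (by norm_num) ?_ i
        have h5 := Real.add_one_le_exp (1 : ℝ)
        linarith
      calc Real.exp (-(3 * (β i : ℝ)) - 3) ≤ Real.exp (-(s : ℝ) + (-2 + -(i : ℝ))) :=
            Real.exp_le_exp.2 h3
        _ = Real.exp (-(s : ℝ)) * (Real.exp (-2) * Real.exp (-(i : ℝ))) := by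
            rw [Real.exp_add, Real.exp_add]
        _ ≤ Real.exp (-(s : ℝ)) * (1 / 4 * (1 / 2 ^ i)) := by
            refine mul_le_mul_of_nonneg_left ?_ (Real.exp_pos _).le
            exact mul_le_mul h4 h5 (Real.exp_pos _).le (by norm_num)
        _ = _ := by ring
    refine (Finset.sum_le_sum h1).trans ?_
    have h2 := sum_lin (w + 1) (Real.exp (-(s : ℝ)) / 4) 0 1 (by positivity) le_rfl zero_le_one
    linarith
  have hlev : ∑ i ∈ range (w + 1), ((β i : ℝ) + 1) * (Real.log w / 2 ^ i) ≤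
      (726 + 4 * s + 124 * C ^ 2) * (Real.log w + Λ ^ 4) := by
    have h1 : ∀ i ∈ range (w + 1), ((β i : ℝ) + 1) * (Real.log w / 2 ^ i) =
        ((361 + 2 * (s : ℝ)) + 2 * i) * (Real.log w / 2 ^ i) +
        2 * R * (if C * Λ ^ 3 ≤ Real.log w / 2 ^ i then 0 else Real.log w / 2 ^ i) := by
      intro i _
      rw [hβ]
      by_cases hc : C * Λ ^ 3 ≤ Real.log w / 2 ^ i
      · simp only [if_pos hc]
        push_cast
        ring
      · simp only [if_neg hc]
        push_cast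
        ring
    rw [Finset.sum_congr rfl h1, Finset.sum_add_distrib, ← Finset.mul_sum]
    have h2 := sum_lin (w + 1) (361 + 2 * (s : ℝ)) 2 (Real.log w) (by positivity) (by norm_num) hLw
    have h3 := sum_cut (w + 1) (C * Λ ^ 3) (Real.log w) (by positivity) hLw
    have h4 : min (Real.log w) (C * Λ ^ 3) ≤ C * Λ ^ 3 := min_le_right _ _
    have h5 : 2 * (R : ℝ) * ∑ i ∈ range (w + 1),
        (if C * Λ ^ 3 ≤ Real.log w / 2 ^ i then 0 else Real.log w / 2 ^ i) ≤
        2 * (31 * C * Λ) * (2 * (C * Λ ^ 3)) := by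
      refine mul_le_mul (by linarith) (by linarith) ?_ (by positivity)
      refine Finset.sum_nonneg (fun i _ => ?_)
      split_ifs
      · exact le_rfl
      · positivity
    have h6 : (0 : ℝ) ≤ s := Nat.cast_nonneg s
    have h7 : 0 ≤ (726 + 4 * (s : ℝ)) * Λ ^ 4 := by positivity
    have h8 : 0 ≤ 124 * C ^ 2 * Real.log w := by positivity
    nlinarith
  have hQ2 : ∀ p ∈ Qf f w, p.Prime ∧ p ≤ w := fun p hp => ⟨(hQ p hp).1, (hQ p hp).2.1⟩
  obtain ⟨m0, m1⟩ := hM w β (Qf f w) (gf f) (ε / 2) hev hg hrange hη (by linarith)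
  refine ⟨fb0 w β (Qf f w), fb0 w β (Qf f w) ∪ fb1 w β (Qf f w), ?_, ?_, ?_, ?_, ?_⟩
  · intro T hT
    have hT2 : T ∈ fb0 w β (Qf f w) ∪ fb1 w β (Qf f w) := by
      rw [Finset.mem_union] at hT
      rcases hT with h | h
      · exact Finset.mem_union_left _ h
      · exact h
    refine ⟨?_, (hL w β (Qf f w) hw1 hQ2 T hT2).trans hlev⟩
    rw [Finset.mem_union] at hT2
    rcases hT2 with h | h
    · unfold fb0 at h
      exact Finset.mem_powerset.1 (mem_of_filter _ h)
    · unfold fb1 at h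
      exact Finset.mem_powerset.1 (mem_of_filter _ h)
  · intro h hh
    exact (hB w β (Qf f w) h hev (fun p _ => hh p)).1
  · intro h hh
    exact (hB w β (Qf f w) h hev (fun p _ => hh p)).2
  · have : 1 + 2 * (ε / 2) = 1 + ε := by ring
    rw [this] at m0
    exact m0
  · have : 1 - 2 * (ε / 2) = 1 - ε := by ring
    rw [this] at m1
    exact m1

end Pool.Agent.Helper76.UP
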