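import Pool.Agent.Helper9.UP.StN

/-!
# Project UP, module KL: Chebyshev lower bound in a number field
-/

set_option autoImplicit false

noncomputable section

namespace Pool.Agent.Helper76.UP

open Finset Polynomial NumberField Module Pool.Agent.Helper9.UP

variable (K : Type) [Field K] [NumberField K]

theorem zero_mem_ball {B : ℝ} (hB : 0 ≤ B) : (0 : 𝓞 K) ∈ ball K B := by
  rw [mem_ball]
  intro φ
  simpa using hB

theorem card_ball0 {B : ℝ} (hB : 0 ≤ B) : ((ball0 K B).card : ℝ) = nb K B - 1 := by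
  classical
  have h : ball0 K B = (ball K B).erase 0 := by
    ext x
    simp [ball0, and_comm]
  have h0 := zero_mem_ball K hB
  have h1 : 1 ≤ (ball K B).card := Finset.card_pos.2 ⟨0, h0⟩
  rw [h, Finset.card_erase_of_mem h0, nb, Nat.cast_sub h1]
  simp

theorem nm_span_le {B : ℝ} {x : 𝓞 K} (hx : x ∈ ball K B) :
    nm K (Ideal.span {x}) ≤ B ^ dg K := by
  unfold nm dg
  rw [Ideal.absNorm_span_singleton]
  have h1 : (((Algebra.norm ℤ x).natAbs : ℕ) : ℝ) = ((|Algebra.norm ℚ (x : K)| : ℚ) : ℝ) := by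
    rw [← Algebra.coe_norm_int]
    rw [← Int.cast_abs, Rat.cast_intCast, Nat.cast_natAbs]
  rw [h1, ← NumberField.InfinitePlace.prod_eq_abs_norm, ← NumberField.InfinitePlace.sum_mult_eq,
    ← Finset.prod_pow_eq_pow_sum]
  refine Finset.prod_le_prod (fun w _ => by positivity) (fun w _ => ?_)
  refine pow_le_pow_left₀ (by positivity) ?_ _
  rw [← NumberField.InfinitePlace.norm_embedding_eq]
  exact (mem_ball K B x).1 hx _

theorem two_le_absNorm {P : Ideal (𝓞 K)} (hP : P.IsPrime) (h0 : P ≠ ⊥) : 2 ≤ Ideal.absNorm P := by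
  have h1 : Ideal.absNorm P ≠ 1 := fun h => hP.ne_top (Ideal.absNorm_eq_one_iff.1 h)
  have h2 : Ideal.absNorm P ≠ 0 := fun h => h0 (Ideal.absNorm_eq_zero_iff.1 h)
  omega

theorem mem_pI {Y : ℕ} {P : Ideal (𝓞 K)} :
    P ∈ pI K Y ↔ Ideal.absNorm P ≤ Y ∧ P.IsPrime ∧ P ≠ ⊥ := by
  classical
  unfold pI
  rw [Finset.mem_filter, Set.Finite.mem_toFinset]
  rfl

theorem mem_pp {Y : ℕ} {v : Ideal (𝓞 K) × ℕ} :
    v ∈ pp K Y ↔ (v.1.IsPrime ∧ v.1 ≠ ⊥) ∧ 1 ≤ v.2 ∧ Ideal.absNorm v.1 ^ v.2 ≤ Y := by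
  classical
  unfold pp
  rw [Finset.mem_filter, Finset.mem_product, mem_pI, Finset.mem_Icc]
  constructor
  · rintro ⟨⟨⟨_, h2⟩, h3, _⟩, h5⟩
    exact ⟨h2, h3, h5⟩
  · rintro ⟨h2, h3, h5⟩
    have h6 := two_le_absNorm K h2.1 h2.2
    refine ⟨⟨⟨?_, h2⟩, h3, ?_⟩, h5⟩
    · calc Ideal.absNorm v.1 = Ideal.absNorm v.1 ^ 1 := (pow_one _).symm
        _ ≤ Ideal.absNorm v.1 ^ v.2 := Nat.pow_le_pow_right (by omega) h3
        _ ≤ Y := h5
    · calc v.2 ≤ 2 ^ v.2 := Nat.lt_two_pow_self.le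
        _ ≤ Ideal.absNorm v.1 ^ v.2 := Nat.pow_le_pow_left h6 _
        _ ≤ Y := h5

theorem log_nm_nonneg {P : Ideal (𝓞 K)} (hP : P.IsPrime) (h0 : P ≠ ⊥) : 0 ≤ Real.log (nm K P) := by
  refine Real.log_nonneg ?_
  have h := two_le_absNorm K hP h0
  unfold nm
  exact_mod_cast (by omega : 1 ≤ Ideal.absNorm P)

/-- pointwise splitting of the logarithm of the norm -/
theorem log_le_split (hF : StFI) {B : ℝ} (Y : ℕ) {x : 𝓞 K} (hx : x ∈ ball0 K B)
    {M : ℝ} (hM : Real.log (nm K (Ideal.span {x})) ≤ M) :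
    Real.log (nm K (Ideal.span {x})) ≤
      ∑ v ∈ pp K Y, (open Classical in if x ∈ v.1 ^ v.2 then Real.log (nm K v.1) else 0) +
      (open Classical in if ∃ (P : Ideal (𝓞 K)) (k : ℕ), P.IsPrime ∧ P ≠ ⊥ ∧ 1 ≤ k ∧
        (Y : ℝ) < nm K P ^ k ∧ x ∈ P ^ k then M else 0) := by
  classical
  have hx0 : x ≠ 0 := by
    unfold ball0 at hx
    exact (Finset.mem_filter.1 hx).2
  by_cases hE : ∃ (P : Ideal (𝓞 K)) (k : ℕ), P.IsPrime ∧ P ≠ ⊥ ∧ 1 ≤ k ∧
        (Y : ℝ) < nm K P ^ k ∧ x ∈ P ^ k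
  · rw [if_pos hE]
    have h1 : 0 ≤ ∑ v ∈ pp K Y, (if x ∈ v.1 ^ v.2 then Real.log (nm K v.1) else 0) := by
      refine Finset.sum_nonneg (fun v hv => ?_)
      have h2 := (mem_pp K).1 hv
      split_ifs
      · exact log_nm_nonneg K h2.1.1 h2.1.2
      · exact le_rfl
    linarith
  · rw [if_neg hE, add_zero, hF K x (Ideal.absNorm (Ideal.span {x})) hx0 le_rfl,
      ← Finset.sum_filter]
    have hsub : (pp K (Ideal.absNorm (Ideal.span {x}))).filter (fun v => x ∈ v.1 ^ v.2) ⊆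
        (pp K Y).filter (fun v => x ∈ v.1 ^ v.2) := by
      intro v hv
      rw [Finset.mem_filter] at hv ⊢
      have h2 := (mem_pp K).1 hv.1
      refine ⟨(mem_pp K).2 ⟨h2.1, h2.2.1, ?_⟩, hv.2⟩
      by_contra hc
      refine hE ⟨v.1, v.2, h2.1.1, h2.1.2, h2.2.1, ?_, hv.2⟩
      unfold nm
      exact_mod_cast (not_le.1 hc)
    refine Finset.sum_le_sum_of_subset_of_nonneg hsub (fun v hv _ => ?_)
    have h2 := (mem_pp K).1 (Finset.mem_filter.1 hv).1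
    exact log_nm_nonneg K h2.1.1 h2.1.2

theorem gen_facts {T : ℝ} (hG : Gen K T) : 1 ≤ dg K ∧ (dg K : ℝ) ≤ T := by
  obtain ⟨α, _, h⟩ := hG
  have h1 : 0 < dg K := Module.finrank_pos
  obtain ⟨φ⟩ : Nonempty (K →+* ℂ) := inferInstance
  have h2 := h φ 0 h1
  rw [pow_zero, mul_one] at h2
  exact ⟨h1, h2⟩

/-- the small prime powers -/
theorem small_part (hE : StEQ) {T : ℝ} (hG : Gen K T) {W B : ℝ} {Y : ℕ} (hW : 12 * (dg K : ℝ) ≤ W)
    (hB1 : 24 * T ^ 2 * W ^ 2 ≤ B)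
    (hB2 : ∀ I : Ideal (𝓞 K), nm K I ≤ Y → T ^ 2 * nm K I ^ (1 / (dg K : ℝ)) * W ≤ B) :
    ∑ x ∈ ball0 K B, ∑ v ∈ pp K Y,
      (open Classical in if x ∈ v.1 ^ v.2 then Real.log (nm K v.1) else 0) ≤
      (1 + 6 * (dg K : ℝ) / W) * nb K B * Sst K Y := by
  classical
  rw [Finset.sum_comm, Sst, Finset.mul_sum]
  refine Finset.sum_le_sum (fun v hv => ?_)
  have h2 := (mem_pp K).1 hv
  rw [← Finset.sum_filter, Finset.sum_const, nsmul_eq_mul]
  have h3 : v.1 ^ v.2 ≠ ⊥ := by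
    rw [Ne, ← Ideal.zero_eq_bot]
    exact pow_ne_zero _ (by rw [Ne, Ideal.zero_eq_bot]; exact h2.1.2)
  have h4 : nm K (v.1 ^ v.2) = nm K v.1 ^ v.2 := by
    unfold nm
    rw [map_pow]
    push_cast
    rfl
  have h5 : nm K (v.1 ^ v.2) ≤ Y := by
    rw [h4]
    unfold nm
    exact_mod_cast h2.2.2
  have h6 := (abs_le.1 (hE K T hG W B (v.1 ^ v.2) hW hB1 h3 (hB2 _ h5))).2
  have h7 : 0 < nm K v.1 ^ v.2 := by
    have := two_le_absNorm K h2.1.1 h2.1.2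
    have h8 : (0 : ℝ) < nm K v.1 := by
      unfold nm
      exact_mod_cast (by omega : 0 < Ideal.absNorm v.1)
    positivity
  have h9 : (((ball0 K B).filter (fun x => x ∈ v.1 ^ v.2)).card : ℝ) ≤ ni K (v.1 ^ v.2) B := by
    unfold ni
    have : (ball0 K B).filter (fun x => x ∈ v.1 ^ v.2) ⊆
        (ball K B).filter (fun x => x ∈ v.1 ^ v.2) :=
      Finset.filter_subset_filter _ (Finset.filter_subset _ _)
    exact_mod_cast Finset.card_le_card this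
  have h10 : ni K (v.1 ^ v.2) B ≤ (1 + 6 * (dg K : ℝ) / W) * nb K B / nm K v.1 ^ v.2 := by
    rw [le_div_iff₀ h7, mul_comm]
    rw [h4] at h6
    linarith
  have h11 := log_nm_nonneg K h2.1.1 h2.1.2
  calc _ ≤ (1 + 6 * (dg K : ℝ) / W) * nb K B / nm K v.1 ^ v.2 * Real.log (nm K v.1) :=
        mul_le_mul_of_nonneg_right (h9.trans h10) h11
    _ = _ := by ring

/-- a large prime excludes the primes of the family -/
theorem no_medium {B V : ℝ} {Y z : ℕ} (hz : z ^ 2 ≤ Y) (hBV : B ^ dg K = V * Y) {x : 𝓞 K}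
    (hx : x ∈ ball K B) (hx0 : x ≠ 0) {P : Ideal (𝓞 K)} (hP : P.IsPrime) (hP0 : P ≠ ⊥)
    (hPY : (Y : ℝ) < nm K P) (hxP : x ∈ P) {Q : Ideal (𝓞 K)} (hQ : Q ∈ pI K z)
    (hVQ : V < nm K Q) : x ∉ Q := by
  intro hxQ
  obtain ⟨hQz, hQ1, hQ0⟩ := (mem_pI K).1 hQ
  have hYpos : 0 < Y := by
    have := two_le_absNorm K hQ1 hQ0
    nlinarith
  have hdP : P ∣ Ideal.span {x} := Ideal.dvd_iff_le.2 ((Ideal.span_singleton_le_iff_mem _).2 hxP)
  have hdQ : Q ∣ Ideal.span {x} := Ideal.dvd_iff_le.2 ((Ideal.span_singleton_le_iff_mem _).2 hxQ)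
  obtain ⟨J, hJ⟩ := hdP
  have hsx : Ideal.span {x} ≠ ⊥ := by
    rw [Ne, Ideal.span_singleton_eq_bot]
    exact hx0
  have hJ0 : J ≠ ⊥ := by
    rintro rfl
    apply hsx
    rw [hJ, Ideal.mul_bot]
  have h1 : nm K (Ideal.span {x}) = nm K P * nm K J := by
    unfold nm
    rw [hJ, map_mul]
    push_cast
    rfl
  have h2 := nm_span_le K hx
  have hJpos : 0 < nm K J := by
    unfold nm
    exact_mod_cast Nat.pos_of_ne_zero (fun h => hJ0 (Ideal.absNorm_eq_zero_iff.1 h))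
  have hY : (0 : ℝ) < Y := by exact_mod_cast hYpos
  have h3 : nm K J < V := by
    have h4 : (Y : ℝ) * nm K J < V * Y := by
      calc (Y : ℝ) * nm K J < nm K P * nm K J := mul_lt_mul_of_pos_right hPY hJpos
        _ ≤ V * Y := by rw [← h1, ← hBV]; exact h2
    nlinarith
  have hQp : Prime Q := Ideal.prime_of_isPrime hQ0 hQ1
  rw [hJ] at hdQ
  rcases hQp.dvd_or_dvd hdQ with h | h
  · have hPQ : P ≤ Q := Ideal.dvd_iff_le.1 h
    have hPm : P.IsMaximal := hP.isMaximal hP0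
    have : P = Q := hPm.eq_of_le hQ1.ne_top hPQ
    subst this
    have h5 : (nm K P : ℝ) ≤ z := by
      unfold nm
      exact_mod_cast hQz
    have h6 : (z : ℝ) ≤ Y := by
      have : z ≤ Y := by nlinarith [Nat.zero_le z, Nat.le_self_pow (n := 2) (by norm_num) z]
      exact_mod_cast this
    linarith
  · have h5 : Ideal.absNorm Q ≤ Ideal.absNorm J := by
      refine Nat.le_of_dvd ?_ (map_dvd Ideal.absNorm h)
      exact Nat.pos_of_ne_zero (fun h => hJ0 (Ideal.absNorm_eq_zero_iff.1 h))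
    have h6 : nm K Q ≤ nm K J := by
      unfold nm
      exact_mod_cast h5
    linarith


/-- the exceptional set is covered by the sieved set and the set of B2 -/
theorem bad_card {B V : ℝ} {Y z : ℕ} (hz : z ^ 2 ≤ Y) (hBV : B ^ dg K = V * Y) :
    (open Classical in (((ball0 K B).filter (fun x : 𝓞 K => ∃ (P : Ideal (𝓞 K)) (k : ℕ), P.IsPrime ∧
      P ≠ ⊥ ∧ 1 ≤ k ∧ (Y : ℝ) < nm K P ^ k ∧ x ∈ P ^ k)).card : ℝ)) ≤
    (open Classical in (((ball K B).filter (fun x : 𝓞 K =>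
      ∀ P ∈ (pI K z).filter (fun P => V < nm K P), x ∉ P)).card : ℝ)) +
    (open Classical in (((ball0 K B).filter (fun x : 𝓞 K => ∃ (P : Ideal (𝓞 K)) (k : ℕ), P.IsPrime ∧
      P ≠ ⊥ ∧ 2 ≤ k ∧ (Y : ℝ) < nm K P ^ k ∧ x ∈ P ^ k)).card : ℝ)) := by
  classical
  rw [← Nat.cast_add]
  refine Nat.cast_le.2 ((Finset.card_le_card ?_).trans (Finset.card_union_le _ _))
  intro x hx
  rw [Finset.mem_filter] at hx
  obtain ⟨hx0, P, k, hP, hP0, hk, hY, hxP⟩ := hx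
  have hx1 : x ∈ ball K B ∧ x ≠ 0 := by
    unfold ball0 at hx0
    exact Finset.mem_filter.1 hx0
  rw [Finset.mem_union, Finset.mem_filter, Finset.mem_filter]
  rcases Nat.lt_or_ge 1 k with h | h
  · exact Or.inr ⟨hx0, P, k, hP, hP0, h, hY, hxP⟩
  · have hk1 : k = 1 := le_antisymm h hk
    subst hk1
    rw [pow_one] at hY hxP
    refine Or.inl ⟨hx1.1, fun Q hQ => ?_⟩
    rw [Finset.mem_filter] at hQ
    exact no_medium K hz hBV hx1.1 hx1.2 hP hP0 hY hxP hQ.1 hQ.2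

/-- the final computation -/
theorem final_calc {d W L LB N S G β : ℝ} (hd : 1 ≤ d) (hW : 0 < W) (hN : 0 < N) (hG : 0 < G)
    (hL : 0 ≤ L) (hSL : S < L) (hLB : L ≤ LB) (hLB2 : LB ≤ 2 * L) (hLN : LB ≤ N)
    (hWL : 36 * d * L ≤ W) (hβ : LB * β ≤ 1)
    (h : LB * (N - 1) ≤ 8 * d ^ 2 * N + ((1 + 6 * d / W) * N * S +
      ((2 / G + 18 * d / W) * N + β * N) * LB)) :
    L - 8 * d ^ 2 - 6 - 4 * L / G ≤ S := by
  have h1 : 6 * d / W * S ≤ 1 := by
    have h2 : 6 * d / W * S ≤ 6 * d / W * L :=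
      mul_le_mul_of_nonneg_left hSL.le (by positivity)
    have h3 : 6 * d / W * L ≤ 1 := by
      rw [div_mul_eq_mul_div, div_le_one hW]
      nlinarith [mul_nonneg (by linarith : (0 : ℝ) ≤ d) hL]
    linarith
  have h4 : 18 * d / W * LB ≤ 1 := by
    rw [div_mul_eq_mul_div, div_le_one hW]
    nlinarith [mul_nonneg (by linarith : (0 : ℝ) ≤ d) (by linarith : (0 : ℝ) ≤ 2 * L - LB)]
  have h5 : 2 / G * LB ≤ 4 * L / G := by
    rw [div_mul_eq_mul_div]
    exact div_le_div_of_nonneg_right (by linarith) hG.le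
  have h6 : LB * N ≤ (1 + 8 * d ^ 2 + (S + 6 * d / W * S) + 2 / G * LB + 18 * d / W * LB +
      LB * β) * N := by
    nlinarith
  have h7 := le_of_mul_le_mul_right h6 hN
  linarith

theorem hKL (hE : StEQ) (hF : StFI) (hR : StRG) (hL : StLG) (hB : StB2) (hT : StTK) : StKL := by
  classical
  intro K _ _ T hG W B G Y z hBe hW hWY h4 h2L h36 hβ hz hGe hG0
  obtain ⟨hd1, hdT⟩ := gen_facts K hG
  have hd : (1 : ℝ) ≤ (dg K : ℝ) := by exact_mod_cast hd1
  have hT1 : 1 ≤ T := hd.trans hdT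
  have hW14 : 14 ≤ W := by linarith
  have hdne : dg K ≠ 0 := by omega
  have hinv : (1 / (dg K : ℝ)) = ((dg K : ℝ))⁻¹ := one_div _
  have hY1 : (1 : ℝ) ≤ Y := le_trans (one_le_pow₀ (by linarith)) hWY
  have hY0 : (0 : ℝ) ≤ Y := by linarith
  have hYr : 24 * W ≤ (Y : ℝ) ^ (1 / (dg K : ℝ)) := by
    rw [hinv]
    have := Real.rpow_le_rpow (by positivity) hWY (by positivity : (0 : ℝ) ≤ ((dg K : ℝ))⁻¹)
    rwa [Real.pow_rpow_inv_natCast (by linarith) hdne] at this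
  have hT2 : 1 ≤ T ^ 2 := one_le_pow₀ hT1
  have hB1 : 24 * T ^ 2 * W ^ 2 ≤ B := by
    rw [hBe]
    have : T ^ 2 * W * (24 * W) ≤ T ^ 2 * W * (Y : ℝ) ^ (1 / (dg K : ℝ)) :=
      mul_le_mul_of_nonneg_left hYr (by positivity)
    linarith
  have hW2 : 1 ≤ W ^ 2 := one_le_pow₀ (by linarith)
  have hTW2 : T ^ 2 * 1 ≤ T ^ 2 * W ^ 2 := mul_le_mul_of_nonneg_left hW2 (sq_nonneg T)
  have hB12 : 12 * T ^ 2 ≤ B := by linarith
  have hBpos : 0 < B := by nlinarith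
  have hBd : B ^ dg K = (T ^ 2 * W) ^ dg K * Y := by
    rw [hBe, mul_pow, hinv, Real.rpow_inv_natCast_pow hY0 hdne]
  have hmono : ∀ r : ℝ, 0 ≤ r → r ≤ Y → T ^ 2 * r ^ (1 / (dg K : ℝ)) * W ≤ B := by
    intro r hr0 hr
    rw [hBe]
    have : r ^ (1 / (dg K : ℝ)) ≤ (Y : ℝ) ^ (1 / (dg K : ℝ)) :=
      Real.rpow_le_rpow hr0 hr (by positivity)
    calc T ^ 2 * r ^ (1 / (dg K : ℝ)) * W = T ^ 2 * W * r ^ (1 / (dg K : ℝ)) := by ring
      _ ≤ _ := mul_le_mul_of_nonneg_left this (by positivity)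
  have hL0 : 0 ≤ Real.log Y := Real.log_nonneg hY1
  rcases le_or_gt (Real.log Y) (Sst K Y) with hS | hS
  · have : 0 ≤ 4 * Real.log Y / G := by positivity
    nlinarith [sq_nonneg (dg K : ℝ)]
  have hLB : Real.log Y ≤ (dg K : ℝ) * Real.log B := by
    rw [← Real.log_pow, hBd]
    refine Real.log_le_log (by linarith) ?_
    have : (1 : ℝ) ≤ (T ^ 2 * W) ^ dg K := one_le_pow₀ (by nlinarith)
    nlinarith
  have hN : (Y : ℝ) ≤ nb K B := by
    refine le_trans ?_ ((hR K T hG B).2.2 hBpos.le)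
    have h1 : B / T = (T * W) * (Y : ℝ) ^ (1 / (dg K : ℝ)) := by
      rw [hBe]
      field_simp
    rw [h1, mul_pow, hinv, Real.rpow_inv_natCast_pow hY0 hdne]
    have : (1 : ℝ) ≤ (T * W) ^ dg K := one_le_pow₀ (by nlinarith)
    nlinarith
  have hlogY : 2 * Real.log Y ≤ Y := by
    have h1 := Real.log_le_sub_one_of_pos (by linarith : (0 : ℝ) < (Y : ℝ) / 2)
    rw [Real.log_div (by linarith) (by norm_num)] at h1
    have h2 := Real.log_two_lt_d9
    linarith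
  have hLN : (dg K : ℝ) * Real.log B ≤ nb K B := by linarith
  have hW12 : 12 * (dg K : ℝ) ≤ W := by linarith
  have hmain := hL K T hG B hB12 h4
  rw [Finset.sum_sub_distrib, Finset.sum_const, nsmul_eq_mul, card_ball0 K hBpos.le] at hmain
  have hsum : ∑ x ∈ ball0 K B, Real.log (nm K (Ideal.span {x})) ≤
      (1 + 6 * (dg K : ℝ) / W) * nb K B * Sst K Y +
      (((ball0 K B).filter (fun x : 𝓞 K => ∃ (P : Ideal (𝓞 K)) (k : ℕ), P.IsPrime ∧
      P ≠ ⊥ ∧ 1 ≤ k ∧ (Y : ℝ) < nm K P ^ k ∧ x ∈ P ^ k)).card : ℝ) *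
        ((dg K : ℝ) * Real.log B) := by
    have h1 : ∀ x ∈ ball0 K B, Real.log (nm K (Ideal.span {x})) ≤ (dg K : ℝ) * Real.log B := by
      intro x hx
      have hx1 : x ∈ ball K B ∧ x ≠ 0 := by
        unfold ball0 at hx
        exact Finset.mem_filter.1 hx
      rw [← Real.log_pow]
      refine Real.log_le_log ?_ (nm_span_le K hx1.1)
      unfold nm
      refine Nat.cast_pos.2 (Nat.pos_of_ne_zero (fun h => hx1.2 ?_))
      rwa [Ideal.absNorm_eq_zero_iff, Ideal.span_singleton_eq_bot] at h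
    refine (Finset.sum_le_sum (fun x hx => log_le_split K hF Y hx (h1 x hx))).trans ?_
    rw [Finset.sum_add_distrib]
    refine add_le_add (small_part K hE hG hW12 hB1 (fun I hI => hmono _ ?_ hI)) ?_
    · unfold nm
      positivity
    · rw [← Finset.sum_filter, Finset.sum_const, nsmul_eq_mul]
  have hbad := bad_card K hz hBd
  have hTK := hT K T hG W B ((pI K z).filter (fun P => (T ^ 2 * W) ^ dg K < nm K P)) hW12 hB1
    (fun P hP => ((mem_pI K).1 (Finset.mem_filter.1 hP).1).2)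
    (by
      intro P hP P' hP'
      have h1 := ((mem_pI K).1 (Finset.mem_filter.1 hP).1).1
      have h2 := ((mem_pI K).1 (Finset.mem_filter.1 hP').1).1
      refine hmono _ (by unfold nm; positivity) ?_
      have h3 : Ideal.absNorm P * Ideal.absNorm P' ≤ Y := by
        calc Ideal.absNorm P * Ideal.absNorm P' ≤ z * z := Nat.mul_le_mul h1 h2
          _ = z ^ 2 := (sq z).symm
          _ ≤ Y := hz
      unfold nm
      exact_mod_cast h3)
    (by rw [← hGe]; exact hG0)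
  rw [← hGe] at hTK
  have hB2 := hB K T hG B Y (by linarith) (by exact_mod_cast hY1)
  have hLB0 : 0 ≤ (dg K : ℝ) * Real.log B := hL0.trans hLB
  refine final_calc hd (by linarith) (by linarith) hG0 hL0 hS hLB h2L hLN h36 hβ ?_
  have hc : (((ball0 K B).filter (fun x : 𝓞 K => ∃ (P : Ideal (𝓞 K)) (k : ℕ), P.IsPrime ∧
      P ≠ ⊥ ∧ 1 ≤ k ∧ (Y : ℝ) < nm K P ^ k ∧ x ∈ P ^ k)).card : ℝ) *
        ((dg K : ℝ) * Real.log B) ≤
      ((2 / G + 18 * (dg K : ℝ) / W) * nb K B + 3 * (dg K : ℝ) * (5 * T ^ 2) ^ dg K *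
        (Y : ℝ) ^ (-(1 / 4) : ℝ) * nb K B) * ((dg K : ℝ) * Real.log B) := by
    refine mul_le_mul_of_nonneg_right ?_ hLB0
    refine le_trans ?_ (add_le_add hTK hB2)
    convert hbad using 2
  have h8 : (dg K : ℝ) * Real.log B * (nb K B - 1) = (nb K B - 1) * ((dg K : ℝ) * Real.log B) := by
    ring
  rw [h8]
  linarith

end Pool.Agent.Helper76.UP
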